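import Pool.Agent.Lib.MP_1ed8ce_co.SS2.Main

open Pool.Agent.Lib.MP_1ed8ce_co SimpleGraph

/-- For all `k ≥ 2` and `3 ≤ b ≤ 2k` and all large `n`: the bound on `gamma2` of Q1 holds; for
`k ≥ 3` equality holds exactly for the graphs `T**(2k + b, n)`; for `k = 2` some other graph
attains the bound. -/
theorem Pool.Agent.Results.MP_1ed8ce_co.Classification.result :
    ∀ k b : ℕ, 2 ≤ k → 3 ≤ b → b ≤ 2 * k → ∃ n₀ : ℕ, ∀ n : ℕ, n₀ ≤ n →
      (∀ G : SimpleGraph (Fin n), (cycleGraph (2 * k + 1)).Free G →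
        (n - (2 * k + b) + 2) ^ 2 / 4 + (2 * k).choose 2 + b.choose 2 ≤ G.edgeSet.ncard →
        gamma2 G ≤ 2 * k.choose 2 + (b / 2).choose 2 + ((b + 1) / 2).choose 2 ∧
          (3 ≤ k → (gamma2 G = 2 * k.choose 2 + (b / 2).choose 2 + ((b + 1) / 2).choose 2 ↔
            IsTss k b n G))) ∧
      (k = 2 → ∃ G : SimpleGraph (Fin n), (cycleGraph (2 * k + 1)).Free G ∧
        (n - (2 * k + b) + 2) ^ 2 / 4 + (2 * k).choose 2 + b.choose 2 ≤ G.edgeSet.ncard ∧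
        gamma2 G = 2 * k.choose 2 + (b / 2).choose 2 + ((b + 1) / 2).choose 2 ∧
        ¬ IsTss k b n G) :=
  fun k b hk h3 hb => SS2.classify k b hk h3 hb
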